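import Pool.Agent.Run7.h635.PER.Stm

/-!
PER, piece COEF: the Hecke relations of the coefficients of an eigenform on `Γ_1(M)`
-/

set_option autoImplicit false

open UpperHalfPlane MatrixGroups CongruenceSubgroup Filter Topology H635.PER

namespace Run7.h632.PER

lemma sum_roots {p : ℕ} (hp : 0 < p) (n : ℕ) :
    ∑ b ∈ Finset.range p, Complex.exp (2 * Real.pi * Complex.I * n * (b / p)) =
      if p ∣ n then (p : ℂ) else 0 := by
  have hpC : (p : ℂ) ≠ 0 := by exact_mod_cast hp.ne'
  set ζ : ℂ := Complex.exp (2 * Real.pi * Complex.I * n / p) with hζ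
  have h1 : ∀ b : ℕ, Complex.exp (2 * Real.pi * Complex.I * n * (b / p)) = ζ ^ b := by
    intro b
    rw [hζ, ← Complex.exp_nat_mul]
    congr 1
    ring
  simp_rw [h1]
  have hζp : ζ ^ p = 1 := by
    rw [hζ, ← Complex.exp_nat_mul, Complex.exp_eq_one_iff]
    exact ⟨n, by push_cast; field_simp⟩
  by_cases hd : p ∣ n
  · rw [if_pos hd]
    obtain ⟨m, rfl⟩ := hd
    have : ζ = 1 := by
      rw [hζ, Complex.exp_eq_one_iff]
      exact ⟨m, by push_cast; field_simp⟩
    simp [this]
  · rw [if_neg hd]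
    have hne : ζ ≠ 1 := by
      intro h
      rw [hζ, Complex.exp_eq_one_iff] at h
      obtain ⟨m, hm⟩ := h
      apply hd
      have h2 : (n : ℂ) = m * p := by
        have h3 : (2 * Real.pi * Complex.I) ≠ 0 := Complex.two_pi_I_ne_zero
        field_simp at hm
        linear_combination hm
      have h3 : (n : ℤ) = m * p := by exact_mod_cast h2
      exact_mod_cast Dvd.intro_left m h3.symm
    have := mul_neg_geom_sum ζ p
    rw [hζp, sub_self] at this
    rcases mul_eq_zero.1 this with h | h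
    · exact absurd (sub_eq_zero.1 h).symm hne
    · exact h

lemma exp_qParam (n : ℕ) (z : ℍ) :
    (Function.Periodic.qParam 1 (z : ℂ)) ^ n = Complex.exp (2 * Real.pi * Complex.I * n * z) := by
  unfold Function.Periodic.qParam
  rw [← Complex.exp_nat_mul]
  congr 1
  push_cast
  ring

lemma hasSum_comp_dvd {p : ℕ} (hp : 0 < p) (g : ℕ → ℂ) (S : ℂ) (h : HasSum g S) :
    HasSum (fun m : ℕ => if p ∣ m then g (m / p) else 0) S := by
  have hinj : Function.Injective (fun n : ℕ => p * n) := fun a b hab =>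
    Nat.eq_of_mul_eq_mul_left hp hab
  have h1 : (fun m : ℕ => if p ∣ m then g (m / p) else 0) ∘ (fun n : ℕ => p * n) = g := by
    funext n
    simp only [Function.comp_apply]
    rw [if_pos (dvd_mul_right p n), Nat.mul_div_cancel_left _ hp]
  rw [← Function.Injective.hasSum_iff hinj, h1]
  · exact h
  · intro m hm
    rw [if_neg]
    rintro ⟨n, rfl⟩
    exact hm ⟨n, rfl⟩

variable {M : ℕ} {k : ℤ} (f : CuspForm (Gamma1 M : Subgroup (GL (Fin 2) ℝ)) k)

/-- the coefficients -/
noncomputable def A (n : ℕ) : ℂ := (qExpansion 1 f).coeff n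

theorem one_mem1 : (1 : ℝ) ∈ (Gamma1 M : Subgroup (GL (Fin 2) ℝ)).strictPeriods := by
  rw [strictPeriods_Gamma1]
  exact AddSubgroup.mem_zmultiples 1

lemma hasSum_f [NeZero M] {w : ℂ} (hw : 0 < w.im) :
    HasSum (fun n : ℕ => A f n * Complex.exp (2 * Real.pi * Complex.I * n * w)) (f (ofComplex w)) := by
  have h := ModularForm.hasSum_qExpansion (Γ := (Gamma1 M : Subgroup (GL (Fin 2) ℝ))) (k := k) f
    one_pos one_mem1 (ofComplex w)
  convert h using 2 with n
  change _ = A f n * _
  congr 1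
  rw [ofComplex_apply_of_im_pos hw]
  unfold Function.Periodic.qParam
  rw [← Complex.exp_nat_mul]
  congr 1
  push_cast
  ring

/-- coefficients of `T_p f`, `c` the factor of `f(pz)` -/
noncomputable def B (c : ℂ) (p : ℕ) (m : ℕ) : ℂ :=
  c * (if p ∣ m then A f (m / p) else 0) + A f (p * m)

lemma im_two {p : ℕ} (hp : 0 < p) (z : ℍ) (b : ℕ) : 0 < (((z : ℂ) + b) / p).im := by
  have hpR : (0 : ℝ) < p := by exact_mod_cast hp
  have hpC : (p : ℂ) ≠ 0 := by exact_mod_cast hp.ne'
  have : ((z : ℂ) + b) / p = (((1 / p : ℝ)) : ℂ) * ((z : ℂ) + b) := by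
    push_cast; field_simp
  rw [this, Complex.mul_im]
  simp only [Complex.ofReal_re, Complex.ofReal_im, zero_mul, add_zero, Complex.add_im,
    Complex.natCast_im]
  have := z.im_pos
  have h0 : (z : ℂ).im = z.im := rfl
  rw [h0]
  positivity

lemma im_one {p : ℕ} (hp : 0 < p) (z : ℍ) : 0 < ((p : ℂ) * z).im := by
  have hpR : (0 : ℝ) < p := by exact_mod_cast hp
  rw [Complex.mul_im]
  simp only [Complex.natCast_re, Complex.natCast_im, zero_mul, add_zero]
  exact mul_pos hpR z.im_pos

lemma hasSum_heckeT [NeZero M] {p : ℕ} (hp : 0 < p) (c : ℂ) (z : ℍ) :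
    HasSum (fun m : ℕ => B f c p m * (Function.Periodic.qParam 1 (z : ℂ)) ^ m)
      (c * f (ofComplex ((p : ℂ) * z)) +
        (∑ b ∈ Finset.range p, f (ofComplex (((z : ℂ) + b) / p))) / p) := by
  have hpC : (p : ℂ) ≠ 0 := by exact_mod_cast hp.ne'
  have hpR : (0 : ℝ) < p := by exact_mod_cast hp
  simp_rw [exp_qParam]
  -- first part
  have h1 : HasSum (fun m : ℕ => c *
      (if p ∣ m then A f (m / p) else 0) * Complex.exp (2 * Real.pi * Complex.I * m * z))
      (c * f (ofComplex ((p : ℂ) * z))) := by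
    have h2 := hasSum_comp_dvd hp _ _ (hasSum_f f (im_one hp z))
    have h3 := h2.mul_left c
    refine h3.congr_fun fun m => ?_
    rw [mul_assoc]
    congr 1
    by_cases hd : p ∣ m
    · rw [if_pos hd, if_pos hd]
      obtain ⟨n, rfl⟩ := hd
      rw [Nat.mul_div_cancel_left _ hp]
      congr 2
      push_cast
      ring
    · rw [if_neg hd, if_neg hd, zero_mul]
  -- second part
  have h2 : HasSum (fun m : ℕ => A f (p * m) * Complex.exp (2 * Real.pi * Complex.I * m * z))
      ((∑ b ∈ Finset.range p, f (ofComplex (((z : ℂ) + b) / p))) / p) := by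
    have h3 : HasSum (fun n : ℕ => ∑ b ∈ Finset.range p, A f n *
        Complex.exp (2 * Real.pi * Complex.I * n * (((z : ℂ) + b) / p)))
        (∑ b ∈ Finset.range p, f (ofComplex (((z : ℂ) + b) / p))) :=
      hasSum_sum fun b _ => hasSum_f f (im_two hp z b)
    have h4 : ∀ n : ℕ, ∑ b ∈ Finset.range p, A f n *
        Complex.exp (2 * Real.pi * Complex.I * n * (((z : ℂ) + b) / p)) =
        if p ∣ n then (fun m : ℕ => (p : ℂ) * (A f (p * m) *
          Complex.exp (2 * Real.pi * Complex.I * m * z))) (n / p) else 0 := by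
      intro n
      have h5 : ∀ b : ℕ, A f n * Complex.exp (2 * Real.pi * Complex.I * n * (((z : ℂ) + b) / p)) =
          A f n * Complex.exp (2 * Real.pi * Complex.I * n * (z / p)) *
            Complex.exp (2 * Real.pi * Complex.I * n * (b / p)) := by
        intro b
        rw [mul_assoc (A f n), ← Complex.exp_add]
        congr 2
        ring
      simp_rw [h5]
      rw [← Finset.mul_sum, sum_roots hp]
      by_cases hd : p ∣ n
      · rw [if_pos hd, if_pos hd]
        obtain ⟨m, rfl⟩ := hd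
        rw [Nat.mul_div_cancel_left _ hp]
        have h6 : (2 * Real.pi * Complex.I * ((p * m : ℕ) : ℂ) * (z / p)) =
            2 * Real.pi * Complex.I * m * z := by
          push_cast; field_simp
        rw [h6]
        ring
      · rw [if_neg hd, if_neg hd, mul_zero]
    simp_rw [h4] at h3
    have hinj : Function.Injective (fun n : ℕ => p * n) := fun a b hab =>
      Nat.eq_of_mul_eq_mul_left hp hab
    have h5 := (Function.Injective.hasSum_iff hinj (by
      intro m hm
      rw [if_neg]
      rintro ⟨n, rfl⟩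
      exact hm ⟨n, rfl⟩)).2 h3
    have h6 := h5.div_const (p : ℂ)
    refine h6.congr_fun fun m => ?_
    simp only [Function.comp_apply]
    rw [if_pos (dvd_mul_right p m), Nat.mul_div_cancel_left _ hp]
    field_simp
  have h3 := h1.add h2
  refine h3.congr_fun fun m => ?_
  unfold B
  ring

lemma hecke_rec [NeZero M] {p : ℕ} (hp : 0 < p) {a c : ℂ}
    (ha : ∀ z : ℍ, c * f (ofComplex ((p : ℂ) * z)) +
        (∑ b ∈ Finset.range p, f (ofComplex (((z : ℂ) + b) / p))) / p = a * f z)
    (m : ℕ) : B f c p m = a * A f m := by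
  have h1 := ModularFormClass.qExpansion_coeff_unique (Γ := (Gamma1 M : Subgroup (GL (Fin 2) ℝ)))
    (k := k) (c := B f c p) one_pos one_mem1 (f := a • f) (fun τ => by
      have h2 := hasSum_heckeT f hp c τ
      rw [ha τ] at h2
      simpa [smul_eq_mul] using h2) m
  rw [h1]
  have h3 := ModularForm.qExpansion_smul (Γ := (Gamma1 M : Subgroup (GL (Fin 2) ℝ))) (k := k)
    one_pos one_mem1 a f
  have h4 : (⇑(a • f) : ℍ → ℂ) = a • ⇑f := rfl
  rw [h4, h3]
  simp [A]

theorem coef : S_Coef := by
  intro M k _ χ f hk hf p hp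
  obtain ⟨c, hc⟩ := hf.hecke p hp
  have key := hecke_rec f hp.pos (a := c) (c := χ (p : ZMod M) * (p : ℂ) ^ (k - 1)) (fun z => hc z)
  have hnd : ¬ p ∣ 1 := fun h => hp.one_lt.ne' (Nat.dvd_one.1 h)
  have h1 := key 1
  unfold B at h1
  rw [if_neg hnd, mul_zero, zero_add, mul_one] at h1
  have hA1 : A f 1 = 1 := hf.coeff_one
  rw [hA1, mul_one] at h1
  have hcp : c = (qExpansion 1 f).coeff p := h1.symm
  refine ⟨fun z => by rw [hc z, hcp], fun n => ?_⟩
  have h2 := key n
  unfold B at h2
  change A f (p * n) = A f p * A f n - if p ∣ n then χ (p : ZMod M) * (p : ℂ) ^ (k - 1) *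
    A f (n / p) else 0
  rw [h1]
  by_cases hd : p ∣ n
  · rw [if_pos hd] at h2 ⊢
    linear_combination h2
  · rw [if_neg hd] at h2 ⊢
    linear_combination h2

end Run7.h632.PER
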