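import Pool.Agent.Run7.h632.PER.Hnf
import Pool.Agent.Run7.h632.PER.Coef

/-!
PER, piece HEC: translates of `a_p f = T_p f`
-/

set_option autoImplicit false

open MatrixGroups UpperHalfPlane ModularForm CongruenceSubgroup Matrix H635.PER
open scoped Manifold

namespace Run7.h632.PER

theorem tri_coe (a : ℕ+) (b : ℕ) (d : ℕ+) : ((tri a b d : GL (Fin 2) ℝ) : Matrix (Fin 2) (Fin 2) ℝ)
    = !![((a : ℕ) : ℝ), ((b : ℕ) : ℝ); 0, ((d : ℕ) : ℝ)] := rfl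

theorem tri_det (a : ℕ+) (b : ℕ) (d : ℕ+) : (tri a b d).det.val = ((a : ℕ) : ℝ) * ((d : ℕ) : ℝ) := by
  rw [GeneralLinearGroup.val_det_apply, tri_coe, det_fin_two_of]
  ring

/-- value of the translate -/
theorem slash_tri (k : ℕ) (F : ℍ → ℂ) (a : ℕ+) (b : ℕ) (d : ℕ+) (z : ℍ) :
    (F ∣[(k : ℤ)] tri a b d) z = F (ofComplex ((((a : ℕ) : ℂ) * z + b) / ((d : ℕ) : ℂ))) *
      (((a : ℕ) : ℂ) * ((d : ℕ) : ℂ)) ^ ((k : ℤ) - 1) * ((d : ℕ) : ℂ) ^ (-(k : ℤ)) := by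
  have ha : (0 : ℝ) < ((a : ℕ) : ℝ) := by exact_mod_cast a.pos
  have hd : (0 : ℝ) < ((d : ℕ) : ℝ) := by exact_mod_cast d.pos
  have hpos : 0 < (tri a b d).det.val := by rw [tri_det]; positivity
  have hden : denom (tri a b d) z = ((d : ℕ) : ℂ) := by
    simp [denom, tri_coe]
  have hsm : ((tri a b d • z : ℍ) : ℂ) = (((a : ℕ) : ℂ) * z + b) / ((d : ℕ) : ℂ) := by
    rw [coe_smul_of_det_pos hpos, hden]
    simp [num, tri_coe]
  rw [slash_apply, σ, if_pos hpos, hden, tri_det, ← hsm, ofComplex_apply]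
  rw [abs_of_pos (by positivity)]
  simp

/-- product of integral matrices -/
theorem tri_mul (a : ℕ+) (b : ℕ) (d : ℕ+) (g γ : SL(2, ℤ)) (a' : ℕ+) (b' : ℕ) (d' : ℕ+)
    (h : !![((a : ℕ) : ℤ), ((b : ℕ) : ℤ); 0, ((d : ℕ) : ℤ)] * (g : Matrix (Fin 2) (Fin 2) ℤ) =
      (γ : Matrix (Fin 2) (Fin 2) ℤ) * !![((a' : ℕ) : ℤ), ((b' : ℕ) : ℤ); 0, ((d' : ℕ) : ℤ)]) :
    tri a b d * (g : GL (Fin 2) ℝ) = (γ : GL (Fin 2) ℝ) * tri a' b' d' := by
  have h2 := congrArg (fun A : Matrix (Fin 2) (Fin 2) ℤ => A.map (Int.castRingHom ℝ)) h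
  simp only [Matrix.map_mul] at h2
  ext i j
  have h3 := congrFun (congrFun h2 i) j
  simp only [Matrix.mul_apply, Fin.sum_univ_two] at h3
  simp only [Units.val_mul, Matrix.mul_apply, Fin.sum_univ_two, tri_coe]
  fin_cases i <;> fin_cases j <;> simpa using h3

theorem translate (k : ℕ) (F : ℍ → ℂ) (a : ℕ+) (b : ℕ) (d : ℕ+) (p : ℕ) (hp : 0 < p)
    (had : (a * d : ℕ) = p) (g : SL(2, ℤ)) : ∃ (γ : SL(2, ℤ)) (a' d' : ℕ+) (b' : ℕ),
    (a' * d' : ℕ) = p ∧ b' < d' ∧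
    (F ∣[(k : ℤ)] tri a b d) ∣[(k : ℤ)] g = (F ∣[(k : ℤ)] γ) ∣[(k : ℤ)] tri a' b' d' := by
  set A : Matrix (Fin 2) (Fin 2) ℤ :=
    !![((a : ℕ) : ℤ), ((b : ℕ) : ℤ); 0, ((d : ℕ) : ℤ)] * (g : Matrix (Fin 2) (Fin 2) ℤ) with hA
  have hdet : A.det = p := by
    have hg : (g : Matrix (Fin 2) (Fin 2) ℤ).det = 1 := g.det_coe
    rw [hA, det_mul, det_fin_two_of, hg, ← had]
    push_cast
    ring
  obtain ⟨γ, a', d', b', h1, h2, _, h3⟩ := hnf A p (∑ i, ∑ j, |A i j|) hp hdet (fun i j =>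
    (Finset.single_le_sum (f := fun j => |A i j|) (fun _ _ => abs_nonneg _) (Finset.mem_univ j)).trans
      (Finset.single_le_sum (f := fun i => ∑ j, |A i j|)
        (fun _ _ => Finset.sum_nonneg fun _ _ => abs_nonneg _) (Finset.mem_univ i)))
  refine ⟨γ, a', d', b', h1, h2, ?_⟩
  rw [SL_slash, SL_slash, ← SlashAction.slash_mul, ← SlashAction.slash_mul,
    tri_mul a b d g γ a' b' d' h3]

/-- sums of translates -/
def Rep (k p n : ℕ) (f F : ℍ → ℂ) : Prop :=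
  ∃ (g' : Fin n → SL(2, ℤ)) (a d : Fin n → ℕ+) (b : Fin n → ℕ),
    (∀ i, (a i * d i : ℕ) = p ∧ b i < d i) ∧
    F = ∑ i, (f ∣[(k : ℤ)] g' i) ∣[(k : ℤ)] tri (a i) (b i) (d i)

theorem Rep.add {k p n m : ℕ} {f F G : ℍ → ℂ} (h1 : Rep k p n f F) (h2 : Rep k p m f G) :
    Rep k p (n + m) f (F + G) := by
  obtain ⟨g₁, a₁, d₁, b₁, h₁, rfl⟩ := h1
  obtain ⟨g₂, a₂, d₂, b₂, h₂, rfl⟩ := h2
  refine ⟨Fin.append g₁ g₂, Fin.append a₁ a₂, Fin.append d₁ d₂, Fin.append b₁ b₂, ?_, ?_⟩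
  · intro i
    refine Fin.addCases (fun i => ?_) (fun i => ?_) i
    · simpa [Fin.append_left] using h₁ i
    · simpa [Fin.append_right] using h₂ i
  · rw [Fin.sum_univ_add]
    simp [Fin.append_left, Fin.append_right]

theorem Rep.sum {k p n : ℕ} {f : ℍ → ℂ} (F : Fin n → ℍ → ℂ)
    (h : ∀ i, ∃ (γ : SL(2, ℤ)) (a' d' : ℕ+) (b' : ℕ), (a' * d' : ℕ) = p ∧ b' < d' ∧
      F i = (f ∣[(k : ℤ)] γ) ∣[(k : ℤ)] tri a' b' d') : Rep k p n f (∑ i, F i) := by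
  choose γ a' d' b' h1 h2 h3 using h
  exact ⟨γ, a', d', b', fun i => ⟨h1 i, h2 i⟩, Finset.sum_congr rfl fun i _ => h3 i⟩

theorem hec' : S_Hec := by
  intro M k _ χ f hk hf p hp g
  have hc := (coef M k χ f hk hf p hp).1
  set c := (qExpansion 1 f).coeff p with hcdef
  have hp0 : 0 < p := hp.pos
  obtain ⟨P, hP⟩ : ∃ P : ℕ+, (P : ℕ) = p := ⟨⟨p, hp0⟩, rfl⟩
  have hpC : (p : ℂ) ≠ 0 := by exact_mod_cast hp.ne_zero
  -- the operator as a sum of translates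
  have hT : c • (f : ℍ → ℂ) = χ (p : ZMod M) • ((f : ℍ → ℂ) ∣[(k : ℤ)] tri P 0 1) +
      ∑ b : Fin p, (f : ℍ → ℂ) ∣[(k : ℤ)] tri 1 (b : ℕ) P := by
    funext z
    rw [Pi.smul_apply, smul_eq_mul, ← hc z, heckeT, Pi.add_apply, Pi.smul_apply, smul_eq_mul,
      slash_tri, Finset.sum_apply, Finset.sum_div, ← Fin.sum_univ_eq_sum_range
        (fun b => f (ofComplex (((z : ℂ) + b) / p)) / p) p]
    congr 1
    · simp only [hP, PNat.one_coe, Nat.cast_one, mul_one, Nat.cast_zero, add_zero, div_one,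
        _root_.one_zpow]
      rw [show (k : ℤ) - 1 = ((k - 1 : ℕ) : ℤ) by omega, zpow_natCast]
      ring
    · refine Finset.sum_congr rfl fun b _ => ?_
      rw [slash_tri]
      simp only [hP, PNat.one_coe, Nat.cast_one, one_mul]
      rw [mul_assoc, ← _root_.zpow_add₀ hpC, show (k : ℤ) - 1 + -(k : ℤ) = -1 by ring, _root_.zpow_neg_one]
      ring
  have hs : c • ((f : ℍ → ℂ) ∣[(k : ℤ)] g) =
      χ (p : ZMod M) • (((f : ℍ → ℂ) ∣[(k : ℤ)] tri P 0 1) ∣[(k : ℤ)] g) +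
      ∑ b : Fin p, ((f : ℍ → ℂ) ∣[(k : ℤ)] tri 1 (b : ℕ) P) ∣[(k : ℤ)] g := by
    rw [← SL_smul_slash, hT, SlashAction.add_slash, SL_smul_slash, SlashAction.sum_slash]
  have hsum : Rep k p p f (∑ b : Fin p, ((f : ℍ → ℂ) ∣[(k : ℤ)] tri 1 (b : ℕ) P) ∣[(k : ℤ)] g) := by
    refine Rep.sum _ fun b => ?_
    exact translate k f 1 b P p hp0 (by simp [hP]) g
  by_cases hpM : IsUnit (p : ZMod M)
  · -- `χ(p) f` is a translate of `f`
    have hco : Nat.Coprime p M := (ZMod.isUnit_iff_coprime p M).1 hpM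
    obtain ⟨x, y, hxy⟩ := Nat.isCoprime_iff_coprime.2 hco
    have hdet : (!![x, -y; (M : ℤ), (p : ℤ)] : Matrix (Fin 2) (Fin 2) ℤ).det = 1 := by
      rw [det_fin_two_of]
      linear_combination hxy
    set σp : SL(2, ℤ) := ⟨_, hdet⟩ with hσ
    have hmem : σp ∈ Gamma0 M := by
      rw [Gamma0_mem]
      simp [hσ]
    have h1 := hf.nebentypus σp hmem
    have h11 : ((σp 1 1 : ℤ) : ZMod M) = (p : ZMod M) := by
      simp [hσ]
    rw [h11] at h1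
    have h2 : χ (p : ZMod M) • (((f : ℍ → ℂ) ∣[(k : ℤ)] tri P 0 1) ∣[(k : ℤ)] g) =
        (((f : ℍ → ℂ) ∣[(k : ℤ)] σp) ∣[(k : ℤ)] tri P 0 1) ∣[(k : ℤ)] g := by
      rw [h1, smul_slash]
      have hσ1 : σ (tri P 0 1) (χ (p : ZMod M)) = χ (p : ZMod M) := by
        rw [σ, if_pos]
        · rfl
        · rw [tri_det]
          simp only [hP, PNat.one_coe, Nat.cast_one, mul_one]
          exact_mod_cast hp0
      rw [hσ1, SL_smul_slash]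
    have h3 : Rep k p 1 f (∑ _i : Fin 1, (((f : ℍ → ℂ) ∣[(k : ℤ)] σp) ∣[(k : ℤ)] tri P 0 1) ∣[(k : ℤ)] g) := by
      refine Rep.sum _ fun _ => ?_
      obtain ⟨γ, a', d', b', h4, h5, h6⟩ := translate k ((f : ℍ → ℂ) ∣[(k : ℤ)] σp) P 0 1 p hp0
        (by simp [hP]) g
      exact ⟨σp * γ, a', d', b', h4, h5, by rw [h6, SlashAction.slash_mul]⟩
    rw [Fin.sum_univ_one] at h3
    obtain ⟨g', a, d, b, h4, h5⟩ := h3.add hsum
    refine ⟨1 + p, g', a, d, b, by omega, h4, ?_⟩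
    rw [hs, h2]
    exact h5
  · obtain ⟨g', a, d, b, h4, h5⟩ := hsum
    refine ⟨p, g', a, d, b, by omega, h4, ?_⟩
    rw [hs, MulChar.map_nonunit χ hpM, zero_smul, zero_add]
    exact h5

theorem hec (_ : S_HNF) (_ : S_Coef) : S_Hec := hec'

end Run7.h632.PER
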