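import Pool.Agent.Run7.h635.PER.Stm

/-!
PER, piece HNF: Hermite normal form of an integral `2 × 2` matrix of positive determinant
-/

set_option autoImplicit false

open MatrixGroups Matrix H635.PER

namespace Run7.h632.PER

theorem hnf : S_HNF := by
  intro A n X hn hdet hX
  rw [det_fin_two] at hdet
  have hX0 : 0 ≤ X := (abs_nonneg _).trans (hX 0 0)
  have hgpos : 0 < Int.gcd (A 0 0) (A 1 0) := by
    rw [Int.gcd_pos_iff]
    by_contra hcon
    push Not at hcon
    rw [hcon.1, hcon.2] at hdet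
    simp at hdet
    omega
  obtain ⟨p, r, hg, hp, hr⟩ := Int.exists_gcd_one hgpos
  obtain ⟨v, w, hvw⟩ := Int.isCoprime_iff_gcd_eq_one.2 hg
  set a : ℤ := (Int.gcd (A 0 0) (A 1 0) : ℤ) with ha
  have ha0 : 0 < a := by rw [ha]; exact_mod_cast hgpos
  set d : ℤ := p * A 1 1 - r * A 0 1 with hd
  have had : a * d = n := by
    rw [hd, ← hdet, hp, hr]
    ring
  have hd0 : 0 < d := by
    have : 0 < a * d := by rw [had]; exact_mod_cast hn
    exact (mul_pos_iff_of_pos_left ha0).1 this
  set t : ℤ := v * A 0 1 + w * A 1 1 with ht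
  have hb0 : 0 ≤ t % d := Int.emod_nonneg _ hd0.ne'
  have hb1 : t % d < d := Int.emod_lt_of_pos _ hd0
  have hdiv : t % d + d * (t / d) = t := Int.emod_add_mul_ediv t d
  have hA01 : A 0 1 = p * t - w * d := by
    rw [ht, hd]
    linear_combination (-A 0 1) * hvw
  have hA11 : A 1 1 = r * t + v * d := by
    rw [ht, hd]
    linear_combination (-A 1 1) * hvw
  have hdetγ : (!![p, -w + (t / d) * p; r, v + (t / d) * r] : Matrix (Fin 2) (Fin 2) ℤ).det = 1 := by
    rw [det_fin_two_of]
    linear_combination hvw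
  obtain ⟨a', ha'⟩ := Int.eq_ofNat_of_zero_le ha0.le
  obtain ⟨d', hd'⟩ := Int.eq_ofNat_of_zero_le hd0.le
  obtain ⟨b', hb'⟩ := Int.eq_ofNat_of_zero_le hb0
  have ha'0 : 0 < a' := by omega
  have hd'0 : 0 < d' := by omega
  have h01 : A 0 1 = p * b' + (-w + (t / d) * p) * d' := by
    rw [← hb', ← hd', hA01]
    linear_combination (-p) * hdiv
  have h11 : A 1 1 = r * b' + (v + (t / d) * r) * d' := by
    rw [← hb', ← hd', hA11]
    linear_combination (-r) * hdiv
  have hbd : (b' : ℤ) + 1 ≤ d' := by omega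
  have hpX : |p| ≤ X := by
    have h1 := hX 0 0
    rw [hp, abs_mul, abs_of_pos ha0] at h1
    nlinarith [abs_nonneg p]
  have hrX : |r| ≤ X := by
    have h1 := hX 1 0
    rw [hr, abs_mul, abs_of_pos ha0] at h1
    nlinarith [abs_nonneg r]
  have hkey : ∀ x y z : ℤ, |x| ≤ X → |z| ≤ X → z = x * b' + y * d' → |y| ≤ 2 * X := by
    intro x y z hx hz he
    have h1 : y * d' = z - x * b' := by rw [he]; ring
    have h2 : |y| * d' ≤ X + X * b' := by
      have h3 : |y * d'| ≤ |z| + |x * b'| := by rw [h1]; exact abs_sub _ _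
      rw [abs_mul, abs_mul, Nat.abs_cast, Nat.abs_cast] at h3
      nlinarith [mul_le_mul_of_nonneg_right hx (Int.natCast_nonneg b')]
    have h4 : |y| * d' ≤ X * d' := by nlinarith
    have h5 : |y| ≤ X := le_of_mul_le_mul_right h4 (by exact_mod_cast hd'0)
    linarith
  refine ⟨⟨!![p, -w + (t / d) * p; r, v + (t / d) * r], hdetγ⟩, ⟨a', ha'0⟩, ⟨d', hd'0⟩, b', ?_, ?_,
    ?_, ?_⟩
  · have : ((a' * d' : ℕ) : ℤ) = n := by
      push_cast
      rw [← ha', ← hd', had]
    exact_mod_cast this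
  · have : (b' : ℤ) < d' := by omega
    exact_mod_cast this
  · intro i j
    fin_cases i <;> fin_cases j
    · change |p| ≤ 2 * X
      linarith
    · change |-w + (t / d) * p| ≤ 2 * X
      exact hkey _ _ _ hpX (hX 0 1) h01
    · change |r| ≤ 2 * X
      linarith
    · change |v + (t / d) * r| ≤ 2 * X
      exact hkey _ _ _ hrX (hX 1 1) h11
  · ext i j
    fin_cases i <;> fin_cases j
    · simp [Matrix.mul_apply, Fin.sum_univ_two]
      rw [hp, ← ha']
    · simp [Matrix.mul_apply, Fin.sum_univ_two]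
      exact h01
    · simp [Matrix.mul_apply, Fin.sum_univ_two]
      rw [hr, ← ha']
    · simp [Matrix.mul_apply, Fin.sum_univ_two]
      exact h11

end Run7.h632.PER
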