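import Pool.Agent.Run7.h635.PER.Stm

/-!
PER, pieces POLY and UNIQ
-/

set_option autoImplicit false

open UpperHalfPlane Filter Topology H635.PER
open scoped Manifold

namespace Run7.h632.PER

theorem open_U : IsOpen {z : ℂ | 0 < z.im} := isOpen_lt continuous_const Complex.continuous_im

theorem conn_U : IsPreconnected {z : ℂ | 0 < z.im} := by
  have : Convex ℝ {z : ℂ | 0 < z.im} := convex_halfSpace_im_gt 0
  exact this.isPreconnected

theorem ev_of {z : ℂ} (hz : 0 < z.im) {f g : ℂ → ℂ} (h : ∀ w : ℂ, 0 < w.im → f w = g w) :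
    f =ᶠ[𝓝 z] g := by
  filter_upwards [open_U.mem_nhds hz] with w hw
  exact h w hw

/-- a primitive of a polynomial -/
noncomputable def prim (m : ℕ) (P : Polynomial ℂ) : Polynomial ℂ :=
  ∑ i ∈ Finset.range m, Polynomial.monomial (i + 1) (P.coeff i / ((i : ℂ) + 1))

theorem prim_mem (m : ℕ) (P : Polynomial ℂ) : prim m P ∈ Polynomial.degreeLT ℂ (m + 1) := by
  refine Submodule.sum_mem _ fun i hi => ?_
  rw [Polynomial.mem_degreeLT]
  refine (Polynomial.degree_monomial_le _ _).trans_lt ?_
  have := Finset.mem_range.1 hi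
  exact_mod_cast (by omega : i + 1 < m + 1)

theorem prim_deriv (m : ℕ) (P : Polynomial ℂ) (hP : P ∈ Polynomial.degreeLT ℂ m) :
    Polynomial.derivative (prim m P) = P := by
  rw [prim, Polynomial.derivative_sum]
  have h1 : ∀ i ∈ Finset.range m, Polynomial.derivative
      (Polynomial.monomial (i + 1) (P.coeff i / ((i : ℂ) + 1))) = Polynomial.monomial i (P.coeff i) := by
    intro i _
    have hi : (i : ℂ) + 1 ≠ 0 := by exact_mod_cast i.succ_ne_zero
    rw [Polynomial.derivative_monomial, Nat.add_sub_cancel]
    congr 1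
    push_cast
    field_simp
  rw [Finset.sum_congr rfl h1]
  ext n
  rw [Polynomial.finsetSum_coeff]
  simp only [Polynomial.coeff_monomial]
  rw [Finset.sum_ite_eq' ]
  split_ifs with hn
  · rfl
  · rw [Finset.mem_range, not_lt] at hn
    rw [Polynomial.mem_degreeLT] at hP
    exact (Polynomial.coeff_eq_zero_of_degree_lt (hP.trans_le (by exact_mod_cast hn))).symm

theorem poly : S_Poly := by
  intro m
  induction m with
  | zero =>
    intro D _ h
    refine ⟨0, Submodule.zero_mem _, fun z => ?_⟩
    have := h z
    rw [iteratedDeriv_zero, Function.comp_apply, ofComplex_apply] at this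
    simp [this]
  | succ m ih =>
    intro D hD h
    have hF : DifferentiableOn ℂ (D ∘ ofComplex) {z | 0 < z.im} := mdifferentiable_iff.1 hD
    have hF' : DifferentiableOn ℂ (deriv (D ∘ ofComplex)) {z | 0 < z.im} := hF.deriv open_U
    have hEq : ∀ w : ℂ, 0 < w.im →
        ((fun z : ℍ => deriv (D ∘ ofComplex) z) ∘ ofComplex) w = deriv (D ∘ ofComplex) w := by
      intro w hw
      simp only [Function.comp_apply]
      rw [ofComplex_apply_of_im_pos hw]
    obtain ⟨P, hP, hPz⟩ := ih (fun z : ℍ => deriv (D ∘ ofComplex) z)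
      (mdifferentiable_iff.2 (hF'.congr fun w hw => hEq w hw)) (fun z => by
        rw [(ev_of z.im_pos hEq).iteratedDeriv_eq m, ← iteratedDeriv_succ']
        exact h z)
    have hder : ∀ w : ℂ, 0 < w.im →
        HasDerivAt (fun w => (D ∘ ofComplex) w - (prim m P).eval w) 0 w := by
      intro w hw
      have h1 : HasDerivAt (D ∘ ofComplex) (P.eval w) w := by
        have h2 := ((hF w hw).differentiableAt (open_U.mem_nhds hw)).hasDerivAt
        have h3 := hPz ⟨w, hw⟩
        rw [show deriv (D ∘ ofComplex) w = P.eval w from h3] at h2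
        exact h2
      have h2 := (prim m P).hasDerivAt w
      rw [prim_deriv m P hP] at h2
      have h3 := h1.sub h2
      rwa [sub_self] at h3
    have hconst : ∀ w : ℂ, 0 < w.im → (D ∘ ofComplex) w - (prim m P).eval w =
        (D ∘ ofComplex) Complex.I - (prim m P).eval Complex.I := by
      intro w hw
      refine open_U.is_const_of_deriv_eq_zero conn_U
        (f := fun w => (D ∘ ofComplex) w - (prim m P).eval w)
        (fun w hw => (hder w hw).differentiableAt.differentiableWithinAt)
        (fun w hw => (hder w hw).deriv) hw (by simp)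
    refine ⟨prim m P + Polynomial.C ((D ∘ ofComplex) Complex.I - (prim m P).eval Complex.I),
      Submodule.add_mem _ (prim_mem m P) ?_, fun z => ?_⟩
    · rw [Polynomial.mem_degreeLT]
      exact Polynomial.degree_C_le.trans_lt (by exact_mod_cast Nat.succ_pos m)
    · rw [Polynomial.eval_add, Polynomial.eval_C, ← hconst z z.im_pos, Function.comp_apply,
        ofComplex_apply]
      ring

theorem uniq : S_Uniq := by
  intro m h H H' hH hH'
  have hF : DifferentiableOn ℂ (H ∘ ofComplex) {z | 0 < z.im} := mdifferentiable_iff.1 hH.1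
  have hF' : DifferentiableOn ℂ (H' ∘ ofComplex) {z | 0 < z.im} := mdifferentiable_iff.1 hH'.1
  have hco : (H - H') ∘ ofComplex = H ∘ ofComplex - H' ∘ ofComplex := rfl
  obtain ⟨P, _, hP⟩ := poly m (H - H') (mdifferentiable_iff.2 (by rw [hco]; exact hF.sub hF'))
    (fun z => by
      rw [hco, iteratedDeriv_sub, hH.2.2 z, hH'.2.2 z, sub_self]
      · exact ((hF.analyticAt (open_U.mem_nhds z.im_pos))).contDiffAt
      · exact ((hF'.analyticAt (open_U.mem_nhds z.im_pos))).contDiffAt)
  have hz : Tendsto (H - H') atImInfty (𝓝 0) := by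
    have h1 : Tendsto H atImInfty (𝓝 0) := hH.2.1
    have h2 : Tendsto H' atImInfty (𝓝 0) := hH'.2.1
    have h3 := h1.sub h2
    rw [sub_zero] at h3
    exact h3
  have hy : Tendsto (fun y : ℝ => (y : ℂ) * Complex.I) atTop (comap Complex.im atTop) := by
    rw [tendsto_comap_iff]
    refine tendsto_id.congr fun y => ?_
    simp
  have h3 : Tendsto (fun y : ℝ => P.eval ((y : ℂ) * Complex.I)) atTop (𝓝 0) := by
    refine ((hz.comp tendsto_comap_im_ofComplex).comp hy).congr' ?_
    filter_upwards [eventually_gt_atTop 0] with y hy0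
    have him : 0 < ((y : ℂ) * Complex.I).im := by simpa using hy0
    rw [Function.comp_apply, Function.comp_apply, hP, ofComplex_apply_of_im_pos him]
  have hP0 : P = 0 := by
    by_cases hd : 0 < P.degree
    · exfalso
      have h4 := P.tendsto_norm_atTop hd (l := atTop) (z := fun y : ℝ => (y : ℂ) * Complex.I)
        (by
          refine tendsto_abs_atTop_atTop.congr fun y => ?_
          simp)
      exact not_tendsto_nhds_of_tendsto_atTop h4 _ h3.norm
    · rw [not_lt] at hd
      rw [Polynomial.eq_C_of_degree_le_zero hd] at h3 ⊢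
      simp only [Polynomial.eval_C] at h3
      rw [tendsto_nhds_unique tendsto_const_nhds h3, map_zero]
  funext z
  have := hP z
  rw [hP0, Polynomial.eval_zero, Pi.sub_apply, sub_eq_zero] at this
  exact this

end Run7.h632.PER
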